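import Pool.Agent.H83.FS.Stm

/-!
# Step IaC: the pair moves forward
-/

set_option autoImplicit false

namespace Pool.Agent.H357.FS83

open SimpleGraph Pool.Agent.H83.FS

/-- The last visit of a walk to its starting vertex. -/
theorem lastVisit {V : Type*} {Y : SimpleGraph V} {P : V → Prop} {w w' : V}
    (h : Cn Y P w w') (hne : w ≠ w') :
    ∃ w₄, Y.Adj w w₄ ∧ P w₄ ∧ w₄ ≠ w ∧ Cn Y (fun x => P x ∧ x ≠ w) w₄ w' := by
  have key : ∀ y, Cn Y P w y → y = w ∨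
      ∃ w₄, Y.Adj w w₄ ∧ P w₄ ∧ w₄ ≠ w ∧ Cn Y (fun x => P x ∧ x ≠ w) w₄ y := by
    intro y hy
    unfold Cn at hy
    induction hy with
    | refl => exact Or.inl rfl
    | @tail y z _ h2 ih =>
      by_cases hz : z = w
      · exact Or.inl hz
      · right
        by_cases hyw : y = w
        · refine ⟨z, ?_, h2.2.2, hz, Cn.refl z⟩
          rw [← hyw]
          exact h2.1
        · rcases ih with h | ⟨w₄, h3, h4, h5, h6⟩
          · exact absurd h hyw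
          · exact ⟨w₄, h3, h4, h5, Cn.trans h6 (Cn.single h2.1 ⟨h2.2.1, hyw⟩ ⟨h2.2.2, hz⟩)⟩
  rcases key w' h with h1 | h1
  · exact absurd h1.symm hne
  · exact h1

theorem iaC (h0 : S_slide) (h3 : S_link) : S_IaC := by
  intro V T _ _ _ Y col σ b b' w w' hF hw
  obtain ⟨a, ha⟩ := hw
  have hst := hF.st
  obtain ⟨⟨hbb, hcol, hnl⟩, huv⟩ := hst
  have hu : σ b ≠ σ b' := huv.ne
  have huw : σ b ≠ w := hF.uw.ne
  -- the first state
  obtain ⟨σ₁, hr1, h1u, h1v, h1w⟩ : ∃ σ₁ : T ≃ V, Rch Y col σ σ₁ ∧ σ₁.symm (σ b) = b ∧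
      σ₁.symm (σ b') = b' ∧ pc col σ₁ w = !(col b) := by
    by_cases hc : pc col σ w = !(col b)
    · exact ⟨σ, Rch.refl Y col σ, by simp, by simp, hc⟩
    · have hs : pc col σ (σ a) = !(col b) := by
        unfold pc
        rw [Equiv.symm_apply_apply]
        exact ha
      obtain ⟨τ, ht1, ht2, ht3, ht4, _⟩ := h0 V T Y col (fun x => x ≠ σ b ∧ x ≠ σ b') (σ a) w
        (hF.all (σ a) hs) σ (by rw [hs]; exact fun h => hc h.symm)
      refine ⟨τ, ht1, ?_, ?_, ?_⟩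
      · rw [ht2 (σ b) (fun h => h.1 rfl), Equiv.symm_apply_apply]
      · rw [ht2 (σ b') (fun h => h.2 rfl), Equiv.symm_apply_apply]
      · rw [ht4, hs]
  have h1b : σ₁ b = σ b := by
    rw [Equiv.symm_apply_eq] at h1u
    exact h1u.symm
  have h1b' : σ₁ b' = σ b' := by
    rw [Equiv.symm_apply_eq] at h1v
    exact h1v.symm
  have hpu : pc col σ₁ (σ b) = col b := by
    unfold pc
    rw [h1u]
  have hpv : pc col σ₁ (σ b') = col b := by
    unfold pc
    rw [h1v, hcol]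
  -- second state
  have hr2 : Rch Y col σ₁ (σ₁.trans (Equiv.swap (σ b) w)) := by
    refine move hF.uw ?_
    rw [hpu, h1w]
    cases col b <;> simp
  have h2b : (σ₁.trans (Equiv.swap (σ b) w)) b = w := by
    rw [Equiv.trans_apply, h1b, Equiv.swap_apply_left]
  have h2b' : (σ₁.trans (Equiv.swap (σ b) w)) b' = σ b' := by
    rw [Equiv.trans_apply, h1b', Equiv.swap_apply_of_ne_of_ne hu.symm hF.wv.symm]
  have h2u : pc col (σ₁.trans (Equiv.swap (σ b) w)) (σ b) = !(col b) := by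
    rw [pc_move, Equiv.swap_apply_left, h1w]
  have h2v : pc col (σ₁.trans (Equiv.swap (σ b) w)) (σ b') = col b := by
    rw [pc_move, Equiv.swap_apply_of_ne_of_ne hu.symm hF.wv.symm, hpv]
  generalize σ₁.trans (Equiv.swap (σ b) w) = σ₂ at hr2 h2b h2b' h2u h2v
  -- third state
  have hr3 : Rch Y col σ₂ (σ₂.trans (Equiv.swap (σ b') (σ b))) := by
    refine move huv.symm ?_
    rw [h2u, h2v]
    cases col b <;> simp
  have h3b : (σ₂.trans (Equiv.swap (σ b') (σ b))) b = w := by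
    rw [Equiv.trans_apply, h2b, Equiv.swap_apply_of_ne_of_ne hF.wv huw.symm]
  have h3b' : (σ₂.trans (Equiv.swap (σ b') (σ b))) b' = σ b := by
    rw [Equiv.trans_apply, h2b', Equiv.swap_apply_left]
  have h3v : pc col (σ₂.trans (Equiv.swap (σ b') (σ b))) (σ b') = !(col b) := by
    rw [pc_move, Equiv.swap_apply_left, h2u]
  generalize σ₂.trans (Equiv.swap (σ b') (σ b)) = σ₃ at hr3 h3b h3b' h3v
  have hr : Rch Y col σ σ₃ := (hr1.trans hr2).trans hr3
  obtain ⟨w₄, hw4, hP4, hne4, hcn4⟩ := lastVisit hF.con hF.ne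
  refine ⟨σ₃, ⟨⟨⟨hbb, hcol, ?_⟩, ?_⟩, σ b', w₄, σ b', h3v, ?_, ?_, ?_, ?_, ?_, ?_⟩, h3b, h3b'⟩
  · intro hlk
    exact hnl ((h3 V T Y col).1 σ₃ σ b b' hr.symm hcol hlk)
  · rw [h3b, h3b']
    exact hF.uw.symm
  · rw [h3b]
    exact hw4
  · rw [h3b']
    exact hP4.1
  · rw [h3b']
    exact huv
  · rw [h3b]
    exact hF.wv.symm
  · rw [h3b, h3b']
    refine Cn.trans (Cn.single hF.vw ⟨hF.wv.symm, hu.symm⟩ ⟨hF.ne.symm, hF.wu⟩) ?_
    refine Cn.mono ?_ (Cn.symm hcn4)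
    intro x hx
    exact ⟨hx.2, hx.1.1⟩
  · exact Cn.refl _

end Pool.Agent.H357.FS83
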